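import Pool.Agent.Work.MP_c9932b_sb.Interface

/-! GB: Goedel's beta lemma in the natural numbers. -/

set_option autoImplicit false

namespace Pool.SBM.helper36

theorem stmt_GB : Stmt_GB := by
  intro f N
  refine ⟨(Nat.unbeta ((List.range N).map f)).unpair.1,
    (Nat.unbeta ((List.range N).map f)).unpair.2, fun i hi => ?_⟩
  have h := Nat.beta_unbeta_coe ((List.range N).map f) ⟨i, by simpa using hi⟩
  have h2 : ((List.range N).map f)[i]'(by simpa using hi) = f i := by simp
  have h3 : Nat.beta (Nat.unbeta ((List.range N).map f)) i = f i := by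
    rw [← h2]; exact h
  rw [← h3]
  simp only [Nat.beta]
  rw [add_comm 1]

end Pool.SBM.helper36
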