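import Pool.Agent.Work.MP_c9932b_sb.Interface

/-! KIN: continuants of positive tuples of given length are injective. -/

set_option autoImplicit false

namespace Pool.SBM.helper36

variable {R : Type} [CommRing R] [LinearOrder R] [IsStrictOrderedRing R]

lemma kp_pos : ∀ l : List R, (∀ a ∈ l, 1 ≤ a) → 1 ≤ (kp l).1 ∧ 0 ≤ (kp l).2
  | [], _ => by simp [kp]
  | a :: l, h => by
    have ih := kp_pos l (fun b hb => h b (List.mem_cons_of_mem _ hb))
    have ha : 1 ≤ a := h a List.mem_cons_self
    refine ⟨?_, ?_⟩
    · simp only [kp]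
      nlinarith [ih.1, ih.2]
    · simp only [kp]
      linarith [ih.1]

lemma kp_lt (b c : R) (m : List R) (h : ∀ a ∈ b :: c :: m, 1 ≤ a) :
    (kp (b :: c :: m)).2 < (kp (b :: c :: m)).1 := by
  have h1 := kp_pos m (fun a ha => h a (by simp [ha]))
  have h2 := kp_pos (c :: m) (fun a ha => h a (by simp only [List.mem_cons] at ha ⊢; tauto))
  have hb : 1 ≤ b := h b List.mem_cons_self
  have e : (kp (b :: c :: m)).1 = b * (kp (c :: m)).1 + (kp m).1 := rfl
  have e2 : (kp (b :: c :: m)).2 = (kp (c :: m)).1 := rfl
  rw [e, e2]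
  nlinarith [h1.1, h2.1]

lemma eq_of_div (hd : ∀ x : R, 0 < x → 1 ≤ x) {a a' p q q' : R} (hq : 0 ≤ q) (hq' : 0 ≤ q')
    (h1 : q < p) (h2 : q' < p) (h : a * p + q = a' * p + q') : a = a' := by
  rcases lt_trichotomy a a' with hlt | heq | hgt
  · have := hd (a' - a) (sub_pos.2 hlt)
    nlinarith
  · exact heq
  · have := hd (a - a') (sub_pos.2 hgt)
    nlinarith

theorem stmt_KIN : Stmt_KIN := by
  intro R _ _ _ hd l
  induction l with
  | nil =>
    intro l' h _ _ _
    exact (List.length_eq_zero_iff.mp h.symm).symm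
  | cons a l ih =>
    intro l' hlen h1 h2 hk
    cases l' with
    | nil => simp at hlen
    | cons a' l' =>
      have hk1 : a * (kp l).1 + (kp l).2 = a' * (kp l').1 + (kp l').2 := congrArg Prod.fst hk
      have hk2 : (kp l).1 = (kp l').1 := congrArg Prod.snd hk
      have hlen' : l.length = l'.length := by simpa using hlen
      have hl : ∀ b ∈ l, 1 ≤ b := fun b hb => h1 b (List.mem_cons_of_mem _ hb)
      have hl' : ∀ b ∈ l', 1 ≤ b := fun b hb => h2 b (List.mem_cons_of_mem _ hb)
      have hp := kp_pos l hl
      have hp' := kp_pos l' hl'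
      have key : a = a' ∧ (kp l).2 = (kp l').2 := by
        rw [← hk2] at hk1
        match l, l', hlen' with
        | [], [], _ => 
          refine ⟨?_, rfl⟩
          simpa [kp] using hk1
        | [b], [b'], _ =>
          have e1 : (kp [b]).2 = 1 := rfl
          have e2 : (kp [b']).2 = 1 := rfl
          rw [e1, e2] at hk1
          refine ⟨?_, by rw [e1, e2]⟩
          have h3 : (a - a') * (kp [b]).1 = 0 := by linear_combination hk1
          rcases mul_eq_zero.1 h3 with h4 | h4
          · exact sub_eq_zero.1 h4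
          · exact absurd h4 (by have := hp.1; intro h5; rw [h5] at this; linarith)
        | b :: c :: m, b' :: c' :: m', _ =>
          have l1 := kp_lt b c m hl
          have l2 := kp_lt b' c' m' hl'
          rw [← hk2] at l2
          have := eq_of_div hd hp.2 hp'.2 l1 l2 hk1
          refine ⟨this, ?_⟩
          rw [this] at hk1
          linarith
      obtain ⟨ha, hq⟩ := key
      rw [ha, ih l' hlen' hl hl' (Prod.ext hk2 hq)]

end Pool.SBM.helper36
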