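import Pool.Agent.Work.MP_c9932b_sb.Interface

/-! KSZ: size of the continuants. -/

set_option autoImplicit false

namespace Pool.SBM.helper36

theorem ksz_aux (R : Type) [CommRing R] [LinearOrder R] [IsStrictOrderedRing R] :
    ∀ (s : ℕ) (x : Fin s → R), (∀ i, 0 ≤ x i) →
      0 ≤ (kpx x).2 ∧ (kpx x).2 ≤ (kpx x).1 ∧ (kpx x).1 ≤ ∏ i, (x i + 2) := by
  intro s
  induction s with
  | zero =>
    intro x _
    simp [kpx, kp]
  | succ s ih =>
    intro x hx
    obtain ⟨h1, h2, h3⟩ := ih (fun i => x i.succ) (fun i => hx i.succ)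
    have e1 : (kpx x).1 = (x 0 + 1) * (kpx fun i => x i.succ).1 + (kpx fun i => x i.succ).2 := by
      simp [kpx, List.ofFn_succ, kp]
    have e2 : (kpx x).2 = (kpx fun i => x i.succ).1 := by
      simp [kpx, List.ofFn_succ, kp]
    have h0 := hx 0
    rw [e1, e2, Fin.prod_univ_succ]
    refine ⟨h1.trans h2, ?_, ?_⟩
    · nlinarith [h1.trans h2]
    · have : (x 0 + 1) * (kpx fun i => x i.succ).1 + (kpx fun i => x i.succ).2
          ≤ (x 0 + 2) * (kpx fun i => x i.succ).1 := by nlinarith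
      refine this.trans ?_
      exact mul_le_mul_of_nonneg_left h3 (by linarith)

theorem stmt_KSZ : Stmt_KSZ := by
  intro R _ _ _ s x hx
  obtain ⟨h1, h2, h3⟩ := ksz_aux R s x hx
  exact ⟨h1.trans h2, h1, h3, h2.trans h3⟩

end Pool.SBM.helper36
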