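import Pool.Agent.Work.MP_c9932b_sb.Interface

/-! COD: the pairing coding is natural. -/

set_option autoImplicit false

open Finset

namespace Pool.SBM.helper36

theorem cod_lower (R : Type) [CommRing R] [LinearOrder R] [IsStrictOrderedRing R]
    (hd : ∀ x : R, 0 < x → 1 ≤ x) :
    ∀ (n : ℕ) (x : Fin n → R), (∀ i, 0 ≤ x i) → 0 ≤ pairList (List.ofFn x) ∧
      ∏ i, (x i + 1) ≤ pairList (List.ofFn x) + 1 := by
  intro n
  induction n with
  | zero =>
    intro x _
    simp [pairList]
  | succ n ih =>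
    intro x hx
    obtain ⟨h1, h2⟩ := ih (fun i => x i.succ) (fun i => hx i.succ)
    have h0 := hx 0
    rw [List.ofFn_succ, Fin.prod_univ_succ]
    simp only [pairList]
    set P := pairList (List.ofFn fun i => x i.succ) with hP
    set a := x 0 with ha
    refine ⟨by positivity, ?_⟩
    have h3 : (a + 1) * ∏ i : Fin n, (x i.succ + 1) ≤ (a + 1) * (P + 1) :=
      mul_le_mul_of_nonneg_left h2 (by linarith)
    refine h3.trans ?_
    have h4 : P ≤ P ^ 2 := by
      rcases h1.eq_or_lt with h | h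
      · rw [← h]; simp
      · have := hd P h
        nlinarith
    nlinarith [mul_nonneg h0 h1, sq_nonneg a]

theorem pairList_nonneg {R : Type} [CommRing R] [LinearOrder R] [IsStrictOrderedRing R] :
    ∀ l : List R, (∀ a ∈ l, 0 ≤ a) → 0 ≤ pairList l
  | [], _ => le_refl _
  | a :: l, h => by
    have := h a List.mem_cons_self
    simp only [pairList]
    positivity

theorem cod_upper : ∀ n : ℕ, ∃ C c : ℕ,
    ∀ (R : Type) [CommRing R] [LinearOrder R] [IsStrictOrderedRing R],
    ∀ x : Fin n → R, (∀ i, 0 ≤ x i) →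
      pairList (List.ofFn x) ≤ (C : R) * (1 + ∑ i, x i) ^ c := by
  intro n
  induction n with
  | zero =>
    refine ⟨0, 0, ?_⟩
    intro R _ _ _ x _
    simp [pairList]
  | succ n ih =>
    obtain ⟨C, c, h⟩ := ih
    refine ⟨(1 + C) ^ 2 + 1, 2 * (c + 1), ?_⟩
    intro R _ _ _ x hx
    have h0 := hx 0
    have hs : 0 ≤ ∑ i : Fin n, x i.succ := Finset.sum_nonneg fun i _ => hx i.succ
    rw [List.ofFn_succ, Fin.sum_univ_succ]
    simp only [pairList]
    have hP := h R (fun i => x i.succ) (fun i => hx i.succ)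
    set P := pairList (List.ofFn fun i => x i.succ) with hPd
    set a := x 0 with ha
    set T := ∑ i : Fin n, x i.succ with hT
    set S := 1 + (a + T) with hS
    have hS1 : 1 ≤ S := by rw [hS]; linarith
    have hS0 : 0 ≤ S := by linarith
    have hP0 : 0 ≤ P := by
      rw [hPd]
      exact pairList_nonneg _ (by
        intro b hb
        rw [List.mem_ofFn] at hb
        obtain ⟨i, rfl⟩ := hb
        exact hx i.succ)
    have hPS : P ≤ C * S ^ (c + 1) := by
      refine hP.trans ?_
      have h5 : (1 + T) ^ c ≤ S ^ c := pow_le_pow_left₀ (by linarith) (by rw [hS]; linarith) c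
      have h6 : S ^ c ≤ S ^ (c + 1) := pow_le_pow_right₀ hS1 (Nat.le_succ c)
      exact mul_le_mul_of_nonneg_left (h5.trans h6) (Nat.cast_nonneg C)
    have haS : a ≤ S ^ (c + 1) := by
      have : a ≤ S := by rw [hS]; linarith
      refine this.trans ?_
      calc S = S ^ 1 := (pow_one S).symm
        _ ≤ S ^ (c + 1) := pow_le_pow_right₀ hS1 (by omega)
    have h7 : a + P ≤ (1 + C) * S ^ (c + 1) := by linarith
    have h8 : (a + P) ^ 2 ≤ ((1 + C) * S ^ (c + 1)) ^ 2 := pow_le_pow_left₀ (by linarith) h7 2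
    have h9 : a ≤ S ^ (2 * (c + 1)) :=
      haS.trans (pow_le_pow_right₀ hS1 (by omega))
    have h10 : ((1 + (C : R)) * S ^ (c + 1)) ^ 2 = (1 + C) ^ 2 * S ^ (2 * (c + 1)) := by
      rw [mul_pow, ← pow_mul, mul_comm (c + 1) 2]
    push_cast
    rw [h10] at h8
    linarith

theorem stmt_COD : Stmt_COD := by
  refine ⟨⟨1, fun n => ⟨1, ?_⟩⟩, fun n => ?_⟩
  · intro R _ _ _ hI x hx
    obtain ⟨h1, h2⟩ := cod_lower R hI.disc n x hx
    exact ⟨h1, by simpa [pairCoding] using h2⟩
  · obtain ⟨C, c, h⟩ := cod_upper n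
    exact ⟨C, c, fun R _ _ _ _ x hx => h R x hx⟩

end Pool.SBM.helper36
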