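import Pool.Agent.Work.MP_c9932b_sb.Interface

/-! CONV: the sharp form implies `BMC`. -/

set_option autoImplicit false

open Finset

namespace Pool.SBM.helper36

/-- iterated bounded existential quantifiers with a common bound -/
theorem bexs (l : ℕ) : ∀ (φ : D0) (k : ℕ), ∃ ψ : D0,
    ∀ (R : Type) [CommRing R] [LinearOrder R] (u : ℕ → R),
      ψ.eval u ↔ ∃ z : Fin l → R, (∀ i, 0 ≤ z i ∧ z i ≤ u k) ∧
        φ.eval (fun i => if h : i < l then z ⟨i, h⟩ else u (i - l)) := by
  induction l with
  | zero =>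
    intro φ k
    refine ⟨φ, ?_⟩
    intro R _ _ u
    constructor
    · intro h
      exact ⟨fun i => i.elim0, fun i => i.elim0, by simpa using h⟩
    · rintro ⟨z, _, h⟩
      simpa using h
  | succ l ih =>
    intro φ k
    obtain ⟨ψ, hψ⟩ := ih φ (k + 1)
    refine ⟨D0.bex (.var k) ψ, ?_⟩
    intro R _ _ u
    rw [D0.eval_bex]
    constructor
    · rintro ⟨a, ha0, ha1, h⟩
      rw [hψ] at h
      obtain ⟨z, hz, h⟩ := h
      refine ⟨Fin.snoc z a, ?_, ?_⟩
      · intro i
        refine Fin.lastCases ?_ (fun j => ?_) i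
        · simpa using ⟨ha0, ha1⟩
        · simpa using hz j
      · convert h using 2 with i
        by_cases h1 : i < l
        · have h2 : i < l + 1 := by omega
          rw [dif_pos h1, dif_pos h2]
          exact Fin.snoc_castSucc (α := fun _ => R) a z ⟨i, h1⟩
        · rw [dif_neg h1]
          by_cases h2 : i < l + 1
          · have h3 : i = l := by omega
            subst h3
            rw [dif_pos h2]
            simp only [Nat.sub_self, push_zero']
            exact Fin.snoc_last (α := fun _ => R) a z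
          · rw [dif_neg h2]
            obtain ⟨j, hj⟩ : ∃ j, i = l + 1 + j := ⟨i - (l + 1), by omega⟩
            subst hj
            have e1 : l + 1 + j - (l + 1) = j := by omega
            have e2 : l + 1 + j - l = j + 1 := by omega
            rw [e1, e2]
            rfl
    · rintro ⟨z, hz, h⟩
      refine ⟨z (Fin.last l), (hz _).1, (hz _).2, ?_⟩
      rw [hψ]
      refine ⟨fun i => z i.castSucc, fun i => hz _, ?_⟩
      convert h using 2 with i
      by_cases h1 : i < l
      · have h2 : i < l + 1 := by omega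
        rw [dif_pos h1, dif_pos h2]
        rfl
      · rw [dif_neg h1]
        by_cases h2 : i < l + 1
        · have h3 : i = l := by omega
          subst h3
          rw [dif_pos h2]
          simp only [Nat.sub_self, push_zero']
          rfl
        · rw [dif_neg h2]
          obtain ⟨j, hj⟩ : ∃ j, i = l + 1 + j := ⟨i - (l + 1), by omega⟩
          subst hj
          have e1 : l + 1 + j - (l + 1) = j := by omega
          have e2 : l + 1 + j - l = j + 1 := by omega
          rw [e1, e2]
          rfl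

/-- bounded formula for `∃ z ≤ w, θ(y,x,z)` -/
theorem bexθ (s l : ℕ) (θ : Opn) : ∃ ψ : D0,
    ∀ (R : Type) [CommRing R] [LinearOrder R] (w y : R) (x : Fin (s + 1) → R),
      ψ.eval (push w (push y (ev x))) ↔ ∃ z : Fin l → R, (∀ i, 0 ≤ z i ∧ z i ≤ w) ∧
        θ.eval (push y (cat x z)) := by
  let σ : ℕ → Tm := fun i =>
    if i = 0 then .var (l + 1) else
    if i < s + 2 then .var (l + 1 + i) else
    if i < s + 2 + l then .var (i - (s + 2)) else .zero
  obtain ⟨ψ, hψ⟩ := bexs l (D0.opn (θ.subst σ)) 0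
  refine ⟨ψ, ?_⟩
  intro R _ _ w y x
  rw [hψ]
  refine exists_congr fun z => ?_
  rw [push_zero', D0.eval_opn, Opn.eval_subst]
  refine and_congr_right fun _ => ?_
  have : (fun i => (σ i).eval (fun i => if h : i < l then z ⟨i, h⟩
      else push w (push y (ev x)) (i - l))) = push y (cat x z) := by
    funext i
    cases i with
    | zero =>
      simp only [σ, if_true, Tm.eval_var, push_zero']
      rw [dif_neg (by omega)]
      have : l + 1 - l = 0 + 1 := by omega
      rw [this]
      rfl
    | succ i =>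
      simp only [σ, push_succ', cat]
      rw [if_neg (by omega)]
      by_cases h1 : i < s + 1
      · rw [if_pos (by omega), dif_pos h1]
        simp only [Tm.eval_var]
        rw [dif_neg (by omega)]
        have : l + 1 + (i + 1) - l = i + 1 + 1 := by omega
        rw [this, push_succ', push_succ', ev, dif_pos h1]
      · rw [if_neg (by omega), dif_neg h1]
        by_cases h2 : i < s + 1 + l
        · rw [if_pos (by omega)]
          simp only [Tm.eval_var, ev]
          rw [dif_pos (by omega), dif_pos (by omega)]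
          congr 2
          omega
        · rw [if_neg (by omega)]
          simp only [Tm.eval_zero, ev]
          rw [dif_neg (by omega)]
  rw [this]

theorem ev_nonneg {R : Type} [Zero R] [Preorder R] {n : ℕ} {x : Fin n → R} (hx : ∀ i, 0 ≤ x i) :
    ∀ i, 0 ≤ ev x i := by
  intro i
  unfold ev
  split_ifs
  · exact hx _
  · exact le_refl _

theorem stmt_CONV : Stmt_CONV := by
  intro cd gn hcd ⟨m, hS⟩ s l θ
  obtain ⟨l', θ', h⟩ := hS s l θ
  refine ⟨l', θ', ?_⟩
  intro R _ _ _ hI hB x hx
  obtain ⟨hA, hBB⟩ := h R hI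
  refine ⟨fun H => ?_, fun H => hBB x hx H⟩
  obtain ⟨ψ, hψ⟩ := bexθ s l θ
  have hdisc := hI.disc
  have key : ∀ y : R, 0 ≤ y → y < x 0 + 1 → ∃ w : R, 0 ≤ w ∧ ψ.eval (push w (push y (ev x))) := by
    intro y hy hyx
    have hyx' : y ≤ x 0 := by
      by_contra hc
      have := hdisc (y - x 0) (by linarith [not_le.1 hc])
      linarith
    obtain ⟨z, hz, hθ⟩ := H y hy hyx'
    refine ⟨∑ i, z i, Finset.sum_nonneg fun i _ => hz i, ?_⟩
    rw [hψ]
    exact ⟨z, fun i => ⟨hz i, Finset.single_le_sum (fun j _ => hz j) (Finset.mem_univ i)⟩, hθ⟩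
  obtain ⟨Z, hZ, hb⟩ := hB ψ (ev x) (x 0 + 1) (ev_nonneg hx) (by linarith [hx 0]) key
  obtain ⟨C, c, hup⟩ := hcd.upper l
  obtain ⟨c', hlow⟩ := hcd.lower
  obtain ⟨C', hlow'⟩ := hlow (s + 1)
  have hcx : 0 ≤ cd R (s + 1) x := (hlow' R hI x hx).1
  have hlZ : 0 ≤ (l : R) * Z := mul_nonneg (Nat.cast_nonneg l) hZ
  have ht1 : 0 ≤ (C : R) * (1 + l * Z) ^ c := by positivity
  have hg : (0 : R) ≤ (gn θ : R) := Nat.cast_nonneg _
  obtain ⟨z', hz', _, hθ'⟩ := hA ((gn θ : R) + cd R (s + 1) x + (C : R) * (1 + l * Z) ^ c)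
    (by linarith) x hx (by linarith) (by
      intro y hy hyx
      obtain ⟨w, hw, hwZ, hw2⟩ := hb y hy (by linarith)
      rw [hψ] at hw2
      obtain ⟨z, hz, hθ⟩ := hw2
      refine ⟨z, fun i => (hz i).1, ?_, hθ⟩
      have h1 := hup R hI z (fun i => (hz i).1)
      have h2 : ∑ i, z i ≤ l * Z := by
        calc ∑ i, z i ≤ ∑ _i : Fin l, Z :=
              Finset.sum_le_sum fun i _ => ((hz i).2.trans hwZ.le)
          _ = l * Z := by simp
      have h0 : 0 ≤ ∑ i, z i := Finset.sum_nonneg fun i _ => (hz i).1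
      have h3 : (C : R) * (1 + ∑ i, z i) ^ c ≤ (C : R) * (1 + l * Z) ^ c :=
        mul_le_mul_of_nonneg_left (pow_le_pow_left₀ (by linarith) (by linarith) c)
          (Nat.cast_nonneg C)
      linarith)
  exact ⟨z', hz', hθ'⟩

end Pool.SBM.helper36
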